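import Pool.Agent.H923R2.FZ.Stubs2

/-! MP_118406_an, task CJZ: conjugation of `Z` (assembly). -/

set_option autoImplicit false

open scoped ComplexConjugate

noncomputable section

namespace Pool.Agent.H923R2.FZ.T_CJZ

open Pool.Agent.H923R2.FP

section hom

variable {Z B : Type} [CStarAlgebra Z] [CStarAlgebra B]

theorem norm_le' (d : Z →⋆ₐ[ℂ] B) (x : Z) : ‖d x‖ ≤ ‖x‖ :=
  NonUnitalStarAlgHom.norm_apply_le d x

theorem cont' (d : Z →⋆ₐ[ℂ] B) : Continuous d :=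
  AddMonoidHomClass.continuous_of_bound d 1 (by simpa only [one_mul] using norm_le' d)

theorem PC_map (d : Z →⋆ₐ[ℂ] B) {x : Z} (hx : PC x) : PC (d x) := by
  refine ⟨hx.1.map d, ?_⟩
  have h : spectrum ℝ (d x) ⊆ spectrum ℝ x :=
    AlgHom.spectrum_apply_subset (d.toAlgHom.restrictScalars ℝ) x
  exact h.trans hx.2

theorem map_cfc' (d : Z →⋆ₐ[ℂ] B) {x : Z} (hx : IsSelfAdjoint x) (F : ℝ → ℝ)
    (hF : Continuous F) : d (cfc F x) = cfc F (d x) :=
  StarAlgHom.map_cfc (S := ℂ) d F x hF.continuousOn (cont' d) hx (hx.map d)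

theorem RWS_map (d : Z →⋆ₐ[ℂ] B) {n : ℕ} {φ : Fin (n + 1) → Fin (n + 1) → Z} {v : Z}
    (h : RWS n φ v) : RWS n (fun i j => d (φ i j)) (d v) where
  st i j := by rw [← map_star, h.st]
  mul i j k l := by
    rw [← map_mul, h.mul]
    split_ifs
    · rw [map_mul, map_sum]
    · rw [map_zero]
  pc := by rw [← map_sum]; exact PC_map d h.pc
  pc0 i := PC_map d (h.pc0 i)
  vv := by rw [← map_star, ← map_mul, h.vv, map_sub, map_one, map_sum]
  ve := by rw [← map_mul, h.ve]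

end hom

section fam

variable {A : Type} [CStarAlgebra A]

theorem FreeFam_comp {K K' : Type} {τ : A →ₗ[ℂ] ℂ} {S : K → StarSubalgebra ℂ A}
    (h : FreeFam τ S) (g : K' → K) (hg : Function.Injective g) (S' : K' → StarSubalgebra ℂ A)
    (hS : ∀ k, S' k ≤ S (g k)) : FreeFam τ S' := by
  intro w hw hz hc
  have := h (w.map fun z => (g z.1, z.2)) (by simpa using hw) ?_ ?_
  · rw [List.map_map] at this
    exact this
  · intro z hz'
    rw [List.mem_map] at hz'
    obtain ⟨y, hy, rfl⟩ := hz'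
    exact ⟨hS _ (hz y hy).1, (hz y hy).2⟩
  · rw [List.isChain_map]
    refine hc.imp fun x y hxy hxy' => hxy (hg hxy')

end fam

section good

variable {B : Type} [CStarAlgebra B]

/-- `x` is moved close to `T` by unitaries which are good enough on the generators -/
def Mv (T : StarSubalgebra ℂ B) (Gd : ℝ → unitary B → Prop) (x : B) : Prop :=
  ∀ ε : ℝ, 0 < ε → ∃ δ : ℝ, 0 < δ ∧ ∀ δ' : ℝ, 0 < δ' → δ' ≤ δ → ∀ u : unitary B, Gd δ' u →
    ∃ a ∈ T, ‖(u : B) * x * star (u : B) - a‖ < ε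

theorem conj_mul (u : unitary B) (x y : B) : (u : B) * (x * y) * star (u : B) =
    ((u : B) * x * star (u : B)) * ((u : B) * y * star (u : B)) := by
  have h : star (u : B) * (u : B) = 1 := Unitary.coe_star_mul_self u
  calc (u : B) * (x * y) * star (u : B) = (u : B) * x * 1 * y * star (u : B) := by
        simp only [mul_one, mul_assoc]
    _ = _ := by rw [← h]; simp only [mul_assoc]

theorem conj_norm (u : unitary B) (x : B) : ‖(u : B) * x * star (u : B)‖ = ‖x‖ := by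
  rw [← Unitary.coe_star, CStarRing.norm_mul_coe_unitary, CStarRing.norm_coe_unitary_mul]

theorem Mv_adjoin (T : StarSubalgebra ℂ B) (Gd : ℝ → unitary B → Prop) (S : Set B)
    (hS : ∀ x ∈ S, Mv T Gd x) (x : B) (hx : x ∈ StarAlgebra.adjoin ℂ S) : Mv T Gd x := by
  induction hx using StarAlgebra.adjoin_induction with
  | mem x h => exact hS x h
  | algebraMap r =>
    intro ε hε
    refine ⟨1, one_pos, fun _ _ _ u _ => ⟨algebraMap ℂ B r, T.algebraMap_mem r, ?_⟩⟩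
    have h : (u : B) * star (u : B) = 1 := Unitary.coe_mul_star_self u
    rw [← Algebra.commutes, mul_assoc, h, mul_one, sub_self, norm_zero]
    exact hε
  | add x y hx hy hx' hy' =>
    intro ε hε
    obtain ⟨δ1, h1, H1⟩ := hx' (ε / 2) (by positivity)
    obtain ⟨δ2, h2, H2⟩ := hy' (ε / 2) (by positivity)
    refine ⟨min δ1 δ2, lt_min h1 h2, fun δ' hδ' hle u hu => ?_⟩
    obtain ⟨a, ha, ha'⟩ := H1 δ' hδ' (hle.trans (min_le_left _ _)) u hu
    obtain ⟨b, hb, hb'⟩ := H2 δ' hδ' (hle.trans (min_le_right _ _)) u hu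
    refine ⟨a + b, add_mem ha hb, ?_⟩
    have : (u : B) * (x + y) * star (u : B) - (a + b) =
        ((u : B) * x * star (u : B) - a) + ((u : B) * y * star (u : B) - b) := by noncomm_ring
    rw [this]
    refine (norm_add_le _ _).trans_lt ?_
    linarith
  | mul x y hx hy hx' hy' =>
    intro ε hε
    obtain ⟨δ1, h1, H1⟩ := hx' (min 1 (ε / 2 / (‖y‖ + 1))) (by positivity)
    obtain ⟨δ2, h2, H2⟩ := hy' (ε / 2 / (‖x‖ + 1)) (by positivity)
    refine ⟨min δ1 δ2, lt_min h1 h2, fun δ' hδ' hle u hu => ?_⟩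
    obtain ⟨a, ha, ha'⟩ := H1 δ' hδ' (hle.trans (min_le_left _ _)) u hu
    obtain ⟨b, hb, hb'⟩ := H2 δ' hδ' (hle.trans (min_le_right _ _)) u hu
    refine ⟨a * b, mul_mem ha hb, ?_⟩
    rw [conj_mul]
    set X := (u : B) * x * star (u : B) with hX
    set Y := (u : B) * y * star (u : B) with hY
    have hXn : ‖X‖ = ‖x‖ := conj_norm u x
    have hYn : ‖Y‖ = ‖y‖ := conj_norm u y
    have han : ‖a‖ ≤ ‖x‖ + 1 := by
      have h3 : ‖a‖ ≤ ‖X‖ + ‖X - a‖ := by
        have h4 := norm_sub_le X (X - a)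
        rwa [sub_sub_cancel] at h4
      have h5 : ‖X - a‖ < 1 := ha'.trans_le (min_le_left _ _)
      rw [hXn] at h3
      linarith
    have h6 : ‖X - a‖ < ε / 2 / (‖y‖ + 1) := ha'.trans_le (min_le_right _ _)
    have : X * Y - a * b = (X - a) * Y + a * (Y - b) := by noncomm_ring
    rw [this]
    have hy1 : 0 < ‖y‖ + 1 := by positivity
    have hx1 : 0 < ‖x‖ + 1 := by positivity
    have e1 : ‖(X - a) * Y‖ ≤ ε / 2 := by
      refine (norm_mul_le _ _).trans ?_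
      calc ‖X - a‖ * ‖Y‖ ≤ (ε / 2 / (‖y‖ + 1)) * (‖y‖ + 1) := by
            refine mul_le_mul h6.le ?_ (norm_nonneg _) (by positivity)
            rw [hYn]; linarith
        _ = ε / 2 := by field_simp
    have e2 : ‖a * (Y - b)‖ < ε / 2 := by
      refine (norm_mul_le _ _).trans_lt ?_
      calc ‖a‖ * ‖Y - b‖ ≤ (‖x‖ + 1) * ‖Y - b‖ := by gcongr
        _ < (‖x‖ + 1) * (ε / 2 / (‖x‖ + 1)) := by
            exact mul_lt_mul_of_pos_left hb' hx1
        _ = ε / 2 := by field_simp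
    refine (norm_add_le _ _).trans_lt ?_
    linarith
  | star x hx hx' =>
    intro ε hε
    obtain ⟨δ, h1, H1⟩ := hx' ε hε
    refine ⟨δ, h1, fun δ' hδ' hle u hu => ?_⟩
    obtain ⟨a, ha, ha'⟩ := H1 δ' hδ' hle u hu
    refine ⟨star a, star_mem ha, ?_⟩
    have : (u : B) * star x * star (u : B) - star a = star ((u : B) * x * star (u : B) - a) := by
      simp [mul_assoc]
    rw [this, norm_star]
    exact ha'

end good

section props

variable (hSRB : S_SRB) (hR0 : S_R0) (hR0b : S_R0b) (hR1 : S_R1) (hFCB : S_FCB) (hMV : S_MV)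

include hSRB hR0 hR0b hR1 hFCB hMV in
theorem props (B : Type) [CStarAlgebra B] (τ : B →ₗ[ℂ] ℂ) (h : FTS τ) (hu : HU τ) :
    FC τ ∧ PED B ∧ PEDH B ∧ MV τ := by
  have h1 : FC τ := hFCB B τ h hu
  have h2 : PED B := hR0 B (hSRB B τ h hu)
  have h3 : PEDH B := hR1 B (hR0b B h2)
  exact ⟨h1, h2, h3, hMV B τ h h1 h2 h3⟩

end props

/-- the closed subalgebra generated by the `f n` -/
theorem sub_RFPw (hSUB : S_SUB) {Z B : Type} [CStarAlgebra Z] [CStarAlgebra B] (t : Z → ℂ)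
    (τ : B →ₗ[ℂ] ℂ) (d : Z →⋆ₐ[ℂ] B) (f : ℕ → (C(unitInterval, ℂ) →⋆ₐ[ℂ] B))
    (h : RFPw (J := Unit) (fun _ => Z) (fun _ => t) τ (fun _ => d) f)
    (T : StarSubalgebra ℂ B) [IsClosed (T : Set B)]
    (hT : T = (StarAlgebra.adjoin ℂ (⋃ n, Set.range (f n))).topologicalClosure) :
    ∃ fA : ℕ → (C(unitInterval, ℂ) →⋆ₐ[ℂ] T), (∀ n x, ((fA n x : T) : B) = f n x) ∧
    RFPw (J := Empty) (fun _ => C(unitInterval, ℂ)) (fun _ => leb)
      (τ.comp T.subtype.toAlgHom.toLinearMap) (fun j => j.elim) fA := by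
  have hmem : ∀ n x, f n x ∈ T := by
    intro n x
    rw [hT]
    apply StarSubalgebra.le_topologicalClosure
    apply StarAlgebra.subset_adjoin
    exact Set.mem_iUnion.2 ⟨n, x, rfl⟩
  obtain ⟨h1, h2⟩ := hSUB B τ h.fts T
  refine ⟨fun n => (f n).codRestrict T (hmem n), fun n x => rfl, ?_⟩
  refine ⟨h1, fun j => j.elim, fun n x => h.trf n x, ?_, ?_⟩
  · rw [← h2]
    refine FreeFam_comp h.free (Sum.map Empty.elim id) ?_ _ ?_
    · rintro (a | a) (b | b) hab
      · exact a.elim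
      · exact a.elim
      · exact b.elim
      · simpa using hab
    · rintro (a | n)
      · exact a.elim
      · rintro x ⟨y, ⟨z, rfl⟩, rfl⟩
        exact ⟨z, rfl⟩
  · rw [eq_top_iff]
    rintro ⟨x, hx⟩ -
    show _ ∈ (StarSubalgebra.topologicalClosure _ : StarSubalgebra ℂ T)
    rw [← SetLike.mem_coe, StarSubalgebra.topologicalClosure_coe,
      Topology.IsInducing.subtypeVal.closure_eq_preimage_closure_image, Set.mem_preimage]
    show x ∈ _
    have hx' : x ∈ closure ((StarAlgebra.adjoin ℂ (⋃ n, Set.range (f n)) :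
        StarSubalgebra ℂ B) : Set B) := by
      rw [← StarSubalgebra.topologicalClosure_coe, SetLike.mem_coe, ← hT]
      exact hx
    refine closure_mono ?_ hx'
    have hle : StarAlgebra.adjoin ℂ (⋃ n, Set.range (f n)) ≤ (StarAlgebra.adjoin ℂ
        ((⋃ j : Empty, Set.range ((j.elim : C(unitInterval, ℂ) →⋆ₐ[ℂ] T))) ∪
          ⋃ n, Set.range ((f n).codRestrict T (hmem n)))).map T.subtype := by
      apply StarAlgebra.adjoin_le
      intro y hy
      obtain ⟨n, z, rfl⟩ := Set.mem_iUnion.1 hy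
      refine ⟨(f n).codRestrict T (hmem n) z, ?_, rfl⟩
      apply StarAlgebra.subset_adjoin
      exact Or.inr (Set.mem_iUnion.2 ⟨n, z, rfl⟩)
    intro y hy
    obtain ⟨z, hz, rfl⟩ := hle hy
    exact ⟨z, hz, rfl⟩

theorem fin_min {α : Type} (G : Finset α) (δ : α → ℝ) (h : ∀ g ∈ G, 0 < δ g) :
    ∃ δ0 : ℝ, 0 < δ0 ∧ ∀ g ∈ G, δ0 ≤ δ g := by
  classical
  induction G using Finset.induction_on with
  | empty => exact ⟨1, one_pos, fun g hg => absurd hg (Finset.notMem_empty g)⟩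
  | insert a s ha ih =>
    obtain ⟨δ1, h1, h2⟩ := ih fun g hg => h g (Finset.mem_insert_of_mem hg)
    refine ⟨min δ1 (δ a), lt_min h1 (h a (Finset.mem_insert_self a s)), fun g hg => ?_⟩
    rcases Finset.mem_insert.1 hg with rfl | hg
    · exact min_le_right _ _
    · exact (min_le_left _ _).trans (h2 g hg)

theorem t_CJZ (hHUW : S_HUW) (hSRB : S_SRB) (hR0 : S_R0) (hR0b : S_R0b) (hR1 : S_R1)
    (hFCB : S_FCB) (hMV : S_MV) (hCONJ : S_CONJ) (hSUB : S_SUB) : S_CJZ := by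
  intro Z _ t hRWA B _ τ d f h G ε hε
  -- properties of `B`
  have hHUB : HU τ := hHUW Unit (fun _ => Z) (fun _ => t) B τ (fun _ => d) f h
  obtain ⟨hFC, hPED, hPEDH, hMVB⟩ := props hSRB hR0 hR0b hR1 hFCB hMV B τ h.fts hHUB
  -- the algebra `A`
  let T : StarSubalgebra ℂ B := (StarAlgebra.adjoin ℂ (⋃ n, Set.range (f n))).topologicalClosure
  have hTc : IsClosed (T : Set B) := StarSubalgebra.isClosed_topologicalClosure _
  obtain ⟨fA, hfA, hA⟩ := sub_RFPw hSUB t τ d f h T rfl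
  have hHUA := hHUW Empty (fun _ => C(unitInterval, ℂ)) (fun _ => leb) T
    (τ.comp T.subtype.toAlgHom.toLinearMap) (fun j => j.elim) fA hA
  obtain ⟨hFCA, hPEDA, hPEDHA, hMVA⟩ := props hSRB hR0 hR0b hR1 hFCB hMV T _ hA.fts hHUA
  -- the system
  obtain ⟨n, φ, v, hR, hFS, happ⟩ := hRWA G (ε / 3) (by positivity)
  have hRB := RWS_map d hR
  have hFSB : FSl τ (∑ m, d (φ m m)) := by
    intro F hF hF0 hF1
    have h1 := hFS F hF hF0 hF1
    rw [← map_sum, ← map_cfc' d hR.pc.1 F hF]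
    have h2 := h.tr () (cfc F (∑ m, φ m m))
    rw [h2]
    exact h1
  have hconj := hCONJ T B (τ.comp T.subtype.toAlgHom.toLinearMap) τ hA.fts h.fts hFCA hPEDA hMVA
    hPED hPEDH hMVB T.subtype (fun _ => rfl) (fA 0) (fun x => hA.trf 0 x) n _ _ hRB hFSB
  -- good unitaries
  let Gd : ℝ → unitary B → Prop := fun δ u =>
    (∀ i j, ∃ y : T, ‖(u : B) * d (φ i j) * star (u : B) - T.subtype y‖ < δ) ∧
      ∃ y : T, ‖(u : B) * d v * star (u : B) - T.subtype y‖ < δ
  have hMvS : ∀ x ∈ d '' (Set.range (fun p : Fin (n + 1) × Fin (n + 1) => φ p.1 p.2) ∪ {v}),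
      Mv T Gd x := by
    rintro x ⟨y, hy, rfl⟩ ε' hε'
    refine ⟨ε', hε', fun δ' _ hle u hu => ?_⟩
    rcases hy with ⟨p, rfl⟩ | hy
    · obtain ⟨a, ha⟩ := hu.1 p.1 p.2
      exact ⟨a, a.2, ha.trans_le hle⟩
    · rw [Set.mem_singleton_iff] at hy
      subst hy
      obtain ⟨a, ha⟩ := hu.2
      exact ⟨a, a.2, ha.trans_le hle⟩
  choose! yy hyy1 hyy2 using happ
  have hMvy : ∀ g ∈ G, Mv T Gd (d (yy g)) := by
    intro g hg
    apply Mv_adjoin T Gd _ hMvS
    rw [← StarAlgHom.map_adjoin]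
    exact ⟨yy g, hyy1 g hg, rfl⟩
  have hMvy' : ∀ g ∈ G, ∃ δ : ℝ, 0 < δ ∧ ∀ δ' : ℝ, 0 < δ' → δ' ≤ δ → ∀ u : unitary B, Gd δ' u →
      ∃ a ∈ T, ‖(u : B) * d (yy g) * star (u : B) - a‖ < ε / 3 :=
    fun g hg => hMvy g hg (ε / 3) (by positivity)
  choose! δ hδ0 hδ using hMvy'
  obtain ⟨δ0, hδ00, hδ0'⟩ : ∃ δ0 : ℝ, 0 < δ0 ∧ ∀ g ∈ G, δ0 ≤ δ g := by
    exact fin_min G δ hδ0
  obtain ⟨u, hu⟩ := hconj δ0 hδ00
  refine ⟨u, fun g hg => ?_⟩
  obtain ⟨a, haT, ha⟩ := hδ g hg δ0 hδ00 (hδ0' g hg) u hu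
  have haT' : a ∈ closure ((StarAlgebra.adjoin ℂ (⋃ n, Set.range (f n)) :
      StarSubalgebra ℂ B) : Set B) := by
    rw [← StarSubalgebra.topologicalClosure_coe]
    exact haT
  obtain ⟨y, hy, hy'⟩ := Metric.mem_closure_iff.1 haT' (ε / 3) (by positivity)
  refine ⟨y, hy, ?_⟩
  have e1 : ‖(u : B) * d g * star (u : B) - (u : B) * d (yy g) * star (u : B)‖ < ε / 3 := by
    have : (u : B) * d g * star (u : B) - (u : B) * d (yy g) * star (u : B) =
        (u : B) * (d (g - yy g)) * star (u : B) := by rw [map_sub]; noncomm_ring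
    rw [this, conj_norm]
    exact (norm_le' d _).trans_lt (hyy2 g hg)
  have e2 : (u : B) * d g * star (u : B) - y =
      ((u : B) * d g * star (u : B) - (u : B) * d (yy g) * star (u : B)) +
      ((u : B) * d (yy g) * star (u : B) - a) + (a - y) := by abel
  rw [dist_eq_norm] at hy'
  rw [e2]
  refine (norm_add_le _ _).trans_lt ?_
  have := norm_add_le ((u : B) * d g * star (u : B) - (u : B) * d (yy g) * star (u : B))
    ((u : B) * d (yy g) * star (u : B) - a)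
  linarith

end Pool.Agent.H923R2.FZ.T_CJZ
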